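import Pool.Agent.Y667.RZ.Stm
import Pool.Agent.Y660.RP.SV6

/-!
RZ project (helper667), task SV3 (helper246): the linear sieve up to `N ^ (1/3)`.
The proof follows `Pool.Agent.Y660.RP.core` (helper660).
-/

set_option autoImplicit false

namespace Pool.Agent.Y246.RZ

open Finset Pool.Agent.W23.DC Filter Pool.Agent.Y660.RP

open Classical in
/-- the indicator of the rough numbers -/
noncomputable def I3 (N : ℕ) (ε : ℝ) (n : ℕ) : ℝ :=
  if ∀ p ∈ pr N ε (1 / 3), ¬ p ∣ n then 1 else 0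

theorem I3_le (N : ℕ) (hN : 2 ≤ N) (ε : ℝ) (K n : ℕ) (τ : ℝ) :
    I3 N ε n ≤ LL (pr N ε (1 / 3)) (tt N) (ind n) K true τ (1 / 3) 1 := by
  classical
  have hS := siz hN ε (1 / 3)
  have h1 := (Pool.Agent.W52.DC.PT (pr N ε (1 / 3)) (tt N) hS n K τ (1 / 3) 1
    (fun p hp _ h => (hS.pr p hp).one_lt.ne' (Nat.dvd_one.1 h))).1
  refine le_trans ?_ h1
  unfold I3
  split_ifs with h2 h3 h3
  · exact le_rfl
  · exact absurd ⟨one_dvd n, fun p hp _ => h2 p hp⟩ h3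
  · norm_num
  · exact le_rfl

theorem I3_ge (N : ℕ) (hN : 2 ≤ N) (ε : ℝ) (K n : ℕ) (τ : ℝ) :
    LL (pr N ε (1 / 3)) (tt N) (ind n) K false τ (1 / 3) 1 ≤ I3 N ε n := by
  classical
  have hS := siz hN ε (1 / 3)
  have h1 := (Pool.Agent.W52.DC.PT (pr N ε (1 / 3)) (tt N) hS n K τ (1 / 3) 1
    (fun p hp _ h => (hS.pr p hp).one_lt.ne' (Nat.dvd_one.1 h))).2
  refine h1.trans ?_
  unfold I3
  by_cases h7 : ∀ p ∈ pr N ε (1 / 3), ¬ p ∣ n
  · rw [if_pos h7]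
    split_ifs <;> norm_num
  · rw [if_neg h7, if_neg]
    rintro ⟨-, h8⟩
    exact h7 (fun p hp => h8 p hp (mem_pr.1 hp).2.2.2)

theorem mer3 (z : ℕ) (ε η : ℝ) (hε : 0 < ε) (hη : 0 < η) : ∃ N₀ : ℕ, ∀ N : ℕ, N₀ ≤ N →
    ∀ (g : ℕ → ℝ) (S : ℕ), S ≠ 0 → S ≤ N → Dn z S g →
      Mer (pr N ε (1 / 3)) (tt N) g ε (1 / 3) η := by
  classical
  obtain ⟨N₁, h1⟩ := mer_of Pool.Agent.W378.DC.MP ε (1 / 3) (η / 2) hε (by norm_num)
    (by positivity)
  obtain ⟨N₂, h2⟩ := ev_rpow ε hε (max z (1 + 2 / (ε * η)))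
  refine ⟨max (max N₁ N₂) 2, fun N hN g S hS0 hSN hg a b ha hab hb => ?_⟩
  have hNN₁ : N₁ ≤ N := ((le_max_left _ _).trans (le_max_left _ _)).trans hN
  have hNN₂ : N₂ ≤ N := ((le_max_right _ _).trans (le_max_left _ _)).trans hN
  have hN2 : 2 ≤ N := (le_max_right _ _).trans hN
  have h3 := h1 N hNN₁ a b ha hab hb
  have hy := h2 N hNN₂
  have hyz : (z : ℝ) < (N : ℝ) ^ ε := lt_of_le_of_lt (le_max_left _ _) hy
  have hy2 : 1 + 2 / (ε * η) < (N : ℝ) ^ ε := lt_of_le_of_lt (le_max_right _ _) hy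
  set y : ℝ := (N : ℝ) ^ ε with hyd
  have hpos : 0 < 2 / (ε * η) := by positivity
  have hy1 : 0 < y - 1 := by linarith
  have hNr : (1 : ℝ) < N := by exact_mod_cast (by omega : 1 < N)
  -- primes of `pr` are large
  have hbig : ∀ p ∈ pr N ε (1 / 3), y ≤ p := fun p hp =>
    (le_tt_iff hN2 (mem_pr.1 hp).2.1 _).1 (mem_pr.1 hp).2.2.1
  have hzp : ∀ p ∈ pr N ε (1 / 3), z < p := by
    intro p hp
    have := lt_of_lt_of_le hyz (hbig p hp)
    exact_mod_cast this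
  set F := (pr N ε (1 / 3)).filter (fun p => a ≤ tt N p ∧ tt N p < b) with hF
  set T := (pr N ε (1 / 3)).filter (fun p => p ∣ S) with hT
  have hTp : ∀ p ∈ T, p.Prime := fun p hp => (mem_pr.1 (mem_filter.1 hp).1).2.1
  have hcard : (T.card : ℝ) * ε ≤ 1 := by
    have e1 : ∏ p ∈ T, p ≤ N :=
      (Nat.le_of_dvd (Nat.pos_of_ne_zero hS0) ((prod_dvd hTp S).2 fun p hp =>
        (mem_filter.1 hp).2)).trans hSN
    have e2 : y ^ T.card ≤ ((∏ p ∈ T, p : ℕ) : ℝ) := by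
      push_cast
      rw [← Finset.prod_const]
      apply Finset.prod_le_prod
      · intro p _
        linarith
      · intro p hp
        exact hbig p (mem_filter.1 hp).1
    have e3 : y ^ T.card ≤ (N : ℝ) := e2.trans (by exact_mod_cast e1)
    have e4 : (N : ℝ) ^ (ε * T.card) ≤ (N : ℝ) ^ (1 : ℝ) := by
      rw [Real.rpow_mul (by linarith), Real.rpow_natCast, Real.rpow_one]
      exact e3
    have e5 := (Real.rpow_le_rpow_left_iff hNr).1 e4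
    linarith
  have hdiff : |∑ p ∈ F, g p - ∑ p ∈ F, 1 / ((p : ℝ) - 1)| ≤ η / 2 := by
    rw [← Finset.sum_sub_distrib]
    refine (Finset.abs_sum_le_sum_abs _ _).trans ?_
    have e1 : ∀ p ∈ F, |g p - 1 / ((p : ℝ) - 1)| ≤ if p ∣ S then 1 / (y - 1) else 0 := by
      intro p hp
      have hp' := (mem_filter.1 hp).1
      have hgp := hg p (mem_pr.1 hp').2.1 (hzp p hp')
      split_ifs with h
      · have h6 := hbig p hp'
        have h7 : 1 / ((p : ℝ) - 1) ≤ 1 / (y - 1) := by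
          apply one_div_le_one_div_of_le hy1
          linarith
        rw [abs_le]
        constructor
        · linarith [hgp.1]
        · have h8 : 0 < 1 / (y - 1) := by positivity
          linarith [hgp.2.1]
      · rw [hgp.2.2 h, sub_self, abs_zero]
    refine (Finset.sum_le_sum e1).trans ?_
    have e2 : ∑ p ∈ F, (if p ∣ S then 1 / (y - 1) else 0) ≤
        ∑ p ∈ pr N ε (1 / 3), (if p ∣ S then 1 / (y - 1) else 0) := by
      apply Finset.sum_le_sum_of_subset_of_nonneg (filter_subset _ _)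
      intro p _ _
      split_ifs
      · positivity
      · exact le_rfl
    refine e2.trans ?_
    rw [← Finset.sum_filter, Finset.sum_const, nsmul_eq_mul]
    have e3 : (2 / (ε * η)) < y - 1 := by linarith
    have e4 : 1 / (y - 1) ≤ ε * η / 2 := by
      rw [div_le_iff₀ hy1]
      rw [div_lt_iff₀ (by positivity)] at e3
      linarith
    have e5 : (0 : ℝ) ≤ T.card := Nat.cast_nonneg _
    calc (T.card : ℝ) * (1 / (y - 1)) ≤ T.card * (ε * η / 2) := by gcongr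
      _ = (T.card * ε) * (η / 2) := by ring
      _ ≤ 1 * (η / 2) := by gcongr
      _ = η / 2 := one_mul _
  have h9 : ∑ p ∈ F, g p - Real.log (b / a) =
      (∑ p ∈ F, g p - ∑ p ∈ F, 1 / ((p : ℝ) - 1)) +
        (∑ p ∈ F, 1 / ((p : ℝ) - 1) - Real.log (b / a)) := by ring
  rw [h9]
  calc _ ≤ |∑ p ∈ F, g p - ∑ p ∈ F, 1 / ((p : ℝ) - 1)| +
        |∑ p ∈ F, 1 / ((p : ℝ) - 1) - Real.log (b / a)| := abs_add_le _ _
    _ ≤ η / 2 + η / 2 := add_le_add hdiff h3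
    _ = η := by ring

theorem prod_le3 {N : ℕ} {ε η : ℝ} (hε : 0 < ε) (hε4 : ε ≤ 1 / 3) (hη : η ≤ 1) (g : ℕ → ℝ)
    (hg : ∀ p ∈ pr N ε (1 / 3), 0 ≤ g p) (h : Mer (pr N ε (1 / 3)) (tt N) g ε (1 / 3) η) :
    ∏ p ∈ pr N ε (1 / 3), (1 + g p) ≤ 1 / ε := by
  classical
  have h1 := h ε (1 / 3) le_rfl hε4 le_rfl
  rw [pr_sub N ε (1 / 3) ε (1 / 3) le_rfl le_rfl] at h1
  have h2 := (abs_le.1 h1).2
  have h3 : ∏ p ∈ pr N ε (1 / 3), (1 + g p) ≤ Real.exp (∑ p ∈ pr N ε (1 / 3), g p) := by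
    rw [Real.exp_sum]
    apply Finset.prod_le_prod
    · intro p hp
      linarith [hg p hp]
    · intro p _
      have := Real.add_one_le_exp (g p)
      linarith
  refine h3.trans ?_
  calc Real.exp (∑ p ∈ pr N ε (1 / 3), g p) ≤ Real.exp (Real.log (1 / 3 / ε) + 1) := by
        apply Real.exp_le_exp.2
        linarith
    _ = 1 / 3 / ε * Real.exp 1 := by
        rw [Real.exp_add, Real.exp_log (by positivity)]
    _ ≤ 1 / 3 / ε * 3 := by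
        have := Real.exp_one_lt_d9
        gcongr
        linarith
    _ = 1 / ε := by ring

theorem arith_low3 {x ε η A0 L SR J LN S1 : ℝ} (hx : 0 ≤ x) (hε : 0 < ε)
    (hη : 0 < η) (hSR : 0 ≤ SR) (hJ : 0 ≤ J) (hJ3 : 2 * (J + 2) ≤ LN)
    (h1 : x * (ε * A0 * (50 / 49 * L)) - x * (ε * (η / 16)) - x * (ε * (η / 16)) -
      (J + 2) * SR ≤ S1) :
    ε * x * (A0 * (50 / 49 * L) - η) - LN * SR ≤ S1 := by
  have h2 : (J + 2) * SR ≤ LN * SR := by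
    have : J + 2 ≤ LN := by linarith
    exact mul_le_mul_of_nonneg_right this hSR
  have h3 : 0 ≤ x * ε * η := by positivity
  have h4 : ε * x * (A0 * (50 / 49 * L) - η) =
      x * (ε * A0 * (50 / 49 * L)) - x * ε * η := by ring
  rw [h4]
  have h5 : x * (ε * (η / 16)) = x * ε * η * (1 / 16) := by ring
  rw [h5] at h1
  linarith

open Classical in
theorem core3 : ∃ (A0 : ℝ) (C0 : ℕ), 0 < A0 ∧ ∀ z : ℕ, C0 ≤ z → ∀ η : ℝ, 0 < η →
  ∃ ε₁ : ℝ, 0 < ε₁ ∧ ε₁ ≤ 1 / 8 ∧ ∃ N0 : ℕ, 2 ≤ N0 ∧ ∀ N : ℕ, N0 ≤ N → (z : ℝ) < (N : ℝ) ^ ε₁ ∧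
  ∀ (ι : Type) (Ω : Finset ι) (v : ι → ℕ) (g : ℕ → ℝ) (A : ℝ) (S : ℕ), 0 ≤ A → S ≠ 0 → S ≤ N →
  Dn z S g →
  (ε₁ * (A * ∏ p ∈ P1 N z ε₁, (1 - g p)) *
      (A0 * (50 / 49 * Real.log (97 / 50)) - η) -
      Real.log N * ∑ q ∈ Lv' z ((N : ℝ) ^ (99 / 100 : ℝ)), Rr Ω v g A q ≤
    ∑ i ∈ Ω.filter (fun i => ∀ p ∈ P1 N z ε₁, ¬ p ∣ v i), I3 N ε₁ (v i)) ∧
  ∀ τ : ℝ, 9 / 20 ≤ τ → τ ≤ 3 / 4 →
    ∑ i ∈ Ω.filter (fun i => ∀ p ∈ P1 N z ε₁, ¬ p ∣ v i), I3 N ε₁ (v i) ≤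
      ε₁ * (A * ∏ p ∈ P1 N z ε₁, (1 - g p)) * (A0 / τ + η) +
      Real.log N * ∑ q ∈ Lv' z ((N : ℝ) ^ (τ + 1 / 100)), Rr Ω v g A q := by
  obtain ⟨A0, F, f, hS⟩ := Pool.Agent.W366.DC.SFX
  obtain ⟨C0, hC1, hfund⟩ := fund
  have hA0 := hS.pos
  refine ⟨A0, C0, hA0, ?_⟩
  intro z hz η hη
  obtain ⟨b, hb, hb2⟩ := exb C0 hC1 η hη
  have hb1 : 1 ≤ b := hC1.trans hb
  have hC0r : (1 : ℝ) ≤ C0 := by exact_mod_cast hC1
  have hbr : (1 : ℝ) ≤ b := by exact_mod_cast hb1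
  have hCb : (1 : ℝ) ≤ C0 * b := by nlinarith
  obtain ⟨ε, hεd⟩ : ∃ ε : ℝ, ε = 1 / (200 * C0 * b) := ⟨_, rfl⟩
  rw [← hεd] at hb2
  have hε : 0 < ε := by rw [hεd]; positivity
  have hε200 : ε ≤ 1 / 200 := by
    rw [hεd]
    apply one_div_le_one_div_of_le (by norm_num)
    nlinarith
  have hlev : 2 * ε * ((C0 * b : ℕ) : ℝ) ≤ 1 / 100 := by
    rw [hεd]
    push_cast
    have : 2 * (1 / (200 * (C0 : ℝ) * b)) * (C0 * b) = 1 / 100 := by
      field_simp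
      norm_num
    rw [this]
  obtain ⟨β, hβd⟩ : ∃ β : ℝ, β = (1 / 2 : ℝ) ^ b := ⟨_, rfl⟩
  have hβ0 : 0 ≤ β := by rw [hβd]; positivity
  have hβε : β * (1 / ε) ≤ ε * (η / 16) := by
    rw [mul_one_div, div_le_iff₀ hε, hβd]
    calc (1 / 2 : ℝ) ^ b ≤ ε ^ 2 * (η / 16) := hb2
      _ = ε * (η / 16) * ε := by ring
  refine ⟨ε, hε, by linarith, ?_⟩
  obtain ⟨ηM, hηM0, HM⟩ := Pool.Agent.W505.DC.MT Pool.Agent.W505.DC.MI A0 F f hS ε (ε * (η / 16))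
    ⌈1 / ε⌉₊ hε (by linarith) (by positivity)
  obtain ⟨N₁, hN₁⟩ := mer3 z ε (min ηM 1) hε (lt_min hηM0 one_pos)
  obtain ⟨N₃, hN₃⟩ := exJ ε hε (by linarith) (C0 * b) hlev
  obtain ⟨N₄, hN₄⟩ := ev_rpow ε hε z
  refine ⟨max (max N₁ (max N₃ N₄)) 2, le_max_right _ _, ?_⟩
  intro N hN
  have hN' : max N₁ (max N₃ N₄) ≤ N := (le_max_left _ _).trans hN
  have hNN₁ : N₁ ≤ N := (le_max_left _ _).trans hN'
  have hNN₃ : N₃ ≤ N := ((le_max_left _ _).trans (le_max_right _ _)).trans hN'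
  have hNN₄ : N₄ ≤ N := ((le_max_right _ _).trans (le_max_right _ _)).trans hN'
  have hN2 : 2 ≤ N := (le_max_right _ _).trans hN
  have hzN := hN₄ N hNN₄
  refine ⟨hzN, ?_⟩
  intro ι Ω v g A S hA hS0 hSN hg
  have hNr : (1 : ℝ) < N := by exact_mod_cast (by omega : 1 < N)
  obtain ⟨J, hJ1, hJ2, hJ3⟩ := hN₃ N hNN₃
  have hMer := hN₁ N hNN₁ g S hS0 hSN hg
  -- nonnegativity
  have hgP : ∀ p ∈ pr N ε (1 / 3), 0 ≤ g p := by
    intro p hp
    have h1 := (le_tt_iff hN2 (mem_pr.1 hp).2.1 _).1 (mem_pr.1 hp).2.2.1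
    have h2 : z < p := by
      have := lt_of_lt_of_le hzN h1
      exact_mod_cast this
    exact (hg p (mem_pr.1 hp).2.1 h2).1
  have hg1 : ∀ p ∈ P1 N z ε, 0 ≤ g p ∧ g p ≤ 1 / ((p : ℝ) - 1) := fun p hp =>
    ⟨(hg p (mem_P1.1 hp).2.1 (mem_P1.1 hp).1.1).1, (hg p (mem_P1.1 hp).2.1 (mem_P1.1 hp).1.1).2.1⟩
  have hV0 : 0 ≤ ∏ p ∈ P1 N z ε, (1 - g p) := by
    apply Finset.prod_nonneg
    intro p hp
    have h1 := (hg1 p hp).2
    have h2 : (2 : ℝ) ≤ p := by exact_mod_cast (mem_P1.1 hp).2.1.two_le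
    have h3 : 1 / ((p : ℝ) - 1) ≤ 1 := by
      rw [div_le_one (by linarith)]
      linarith
    linarith
  have hMer1 : Mer (pr N ε (1 / 3)) (tt N) g ε (1 / 3) ηM := fun a b ha hab hb =>
    (hMer a b ha hab hb).trans (min_le_left _ _)
  have hprod := prod_le3 hε (by linarith) (min_le_right ηM 1) g hgP hMer
  set P := pr N ε (1 / 3) with hPd
  set V := ∏ p ∈ P1 N z ε, (1 - g p) with hVd
  set x := A * V with hxd
  have hx : 0 ≤ x := mul_nonneg hA hV0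
  set Ω1 := Ω.filter (fun i => ∀ p ∈ P1 N z ε, ¬ p ∣ v i) with hΩ1
  set K := ⌈1 / ε⌉₊ with hK
  have hKε : 1 ≤ (K + 2) * ε := by
    have h1 : 1 / ε ≤ K := Nat.le_ceil _
    have h2 : 1 / ε * ε = 1 := by field_simp
    nlinarith
  have HM' := HM P (tt N) g (1 / 3) (by norm_num) hgP (fun p hp => (mem_pr.1 hp).2.2.1)
    hMer1 K le_rfl
  set TT := (P1 N z ε).powerset.filter
    (fun T : Finset ℕ => ∏ p ∈ T, p ≤ (2 ^ 2 ^ J) ^ (C0 * b)) with hTTd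
  have hTTsub : ∀ T ∈ TT, T ⊆ P1 N z ε := fun T hT => mem_powerset.1 (mem_filter.1 hT).1
  have hTTle : ∀ T ∈ TT, ((∏ p ∈ T, p : ℕ) : ℝ) ≤ (N : ℝ) ^ (1 / 100 : ℝ) := by
    intro T hT
    refine le_trans ?_ hJ2
    exact_mod_cast (mem_filter.1 hT).2
  -- the preliminary sieve
  have hr : ∀ e, e ≠ 0 → (∀ p ∈ e.primeFactors, ε ≤ tt N p) → 0 ≤ gp g e →
      |rem Ω1 v g x e| ≤ β * (x * gp g e) + ((J : ℝ) + 2) * ∑ T ∈ TT, Rr Ω v g A (e * ∏ p ∈ T, p) := by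
    intro e he hep hge
    have h1 := hfund b J z (P1 N z ε) g hb hz
      (fun p hp => ⟨(mem_P1.1 hp).2.1, (mem_P1.1 hp).1.1, hJ1 p (mem_P1.1 hp).2.2⟩) hg1 ι Ω v A e hA
      hge (by
        intro p hp hpe
        have h2 := hep p (Nat.mem_primeFactors.2 ⟨(mem_P1.1 hp).2.1, hpe, he⟩)
        have h3 := (tt_lt_iff hN2 (mem_P1.1 hp).2.1 ε).2 (mem_P1.1 hp).2.2
        linarith)
    have e1 : rem Ω1 v g x e = ((Ω1.filter (fun i => e ∣ v i)).card : ℝ) - A * gp g e * V := by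
      unfold rem
      rw [hxd]
      ring
    have e2 : β * (x * gp g e) = (1 / 2 : ℝ) ^ b * (A * gp g e * V) := by
      rw [hβd, hxd]
      ring
    rw [e1, e2]
    exact h1
  have hJ20 : (0 : ℝ) ≤ (J : ℝ) + 2 := by positivity
  have hone : ∀ p ∈ (1 : ℕ).primeFactors, 1 / 3 ≤ tt N p := by simp
  have hEB := fun (bb : Bool) (τ : ℝ) (h4 : 0 ≤ τ) (h5 : bb = false → 2 * (1 / 3) ≤ τ) =>
    err_bound hN2 (show ε ≤ 1 / 3 by linarith) Ω1 v g hgP x β ((J : ℝ) + 2) TT (Rr Ω v g A) hx hβ0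
      hr K bb τ (1 / 3) 1 one_ne_zero hone (by rw [gp_one]; norm_num) h4 h5
  -- the moduli
  have hm1 : ∀ τ : ℝ, 0 ≤ τ →
      ∑ e ∈ EE P (tt N) τ (1 / 3), ∑ T ∈ TT, Rr Ω v g A (1 * e * ∏ p ∈ T, p) ≤
        ∑ m ∈ Lv' z ((N : ℝ) ^ (τ + 1 / 100)), Rr Ω v g A m := by
    intro τ hτ
    have h1 := moduli hN2 (show ε ≤ 1 / 3 by linarith) hzN {1} (fun _ => τ) (fun _ => 1 / 3) TT
      (D := (N : ℝ) ^ (τ + 1 / 100)) (by
        intro d hd
        rw [mem_singleton] at hd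
        subst hd
        exact ⟨one_ne_zero, squarefree_one, hone⟩) hTTsub (by
        intro d hd e he T hT
        rw [mem_singleton] at hd
        subst hd
        rw [one_mul, Real.rpow_add (by linarith)]
        push_cast
        have h2 := EE_le hN2 hτ he
        have h3 := hTTle T hT
        push_cast at h3
        gcongr) (Rr Ω v g A) (Rr_nonneg Ω v g A)
    rw [sum_singleton] at h1
    exact h1
  have hSR0 : ∀ D : ℝ, 0 ≤ ∑ m ∈ Lv' z D, Rr Ω v g A m := fun D =>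
    Finset.sum_nonneg fun m _ => Rr_nonneg Ω v g A m
  have hxβ : x * (β * (1 / ε)) ≤ x * (ε * (η / 16)) := mul_le_mul_of_nonneg_left hβε hx
  constructor
  · -- lower bound
    set SR := ∑ m ∈ Lv' z ((N : ℝ) ^ (99 / 100 : ℝ)), Rr Ω v g A m with hSRd
    have hSR := hSR0 ((N : ℝ) ^ (99 / 100 : ℝ))
    rw [← hSRd] at hSR
    have hsum : ∑ i ∈ Ω1, LL P (tt N) (ind (v i)) K false (98 / 100) (1 / 3) 1 ≤
        ∑ i ∈ Ω1, I3 N ε (v i) :=
      Finset.sum_le_sum fun i _ => I3_ge N hN2 ε K (v i) (98 / 100)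
    refine le_trans ?_ hsum
    -- the main term
    have e1 := LL_main hN2 (ε := ε) (w := 1 / 3) Ω1 v g x K false (98 / 100) (1 / 3) 1
      (fun p hp _ h => (mem_pr.1 hp).2.1.one_lt.ne' (Nat.dvd_one.1 h))
    have e2 := (HM' (98 / 100) (1 / 3) (by linarith) (by linarith) le_rfl (by norm_num)
      (by norm_num)).2 (by norm_num)
    have e3 : ε / (1 / 3) * f (98 / 100 / (1 / 3)) = ε * A0 * (50 / 49 * Real.log (97 / 50)) := by
      rw [hS.f4 _ (by norm_num) (by norm_num)]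
      have : (98 / 100 / (1 / 3) - 1 : ℝ) = 97 / 50 := by norm_num
      rw [this]
      ring
    rw [e3] at e2
    have e4 := hEB false (98 / 100) (by norm_num) (fun _ => by norm_num)
    rw [gp_one, one_mul] at e4
    have e5 := hm1 (98 / 100) (by norm_num)
    have e6 : (98 / 100 + 1 / 100 : ℝ) = 99 / 100 := by norm_num
    rw [e6, ← hSRd] at e5
    have hfirst : x * (ε * A0 * (50 / 49 * Real.log (97 / 50))) - x * (ε * (η / 16)) -
        x * (ε * (η / 16)) - ((J : ℝ) + 2) * SR ≤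
        ∑ i ∈ Ω1, LL P (tt N) (ind (v i)) K false (98 / 100) (1 / 3) 1 := by
      rw [e1, gp_one, one_mul]
      have h1 : x * (ε * A0 * (50 / 49 * Real.log (97 / 50)) - ε * (η / 16)) ≤
          x * MM P (tt N) g K false (98 / 100) (1 / 3) := mul_le_mul_of_nonneg_left e2 hx
      have h2 := (abs_le.1 e4).1
      have h3 : β * (x * ∏ p ∈ P, (1 + g p)) ≤ x * (β * (1 / ε)) := by
        calc β * (x * ∏ p ∈ P, (1 + g p)) ≤ β * (x * (1 / ε)) := by gcongr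
          _ = _ := by ring
      have h4 : ((J : ℝ) + 2) * ∑ e ∈ EE P (tt N) (98 / 100) (1 / 3), ∑ T ∈ TT,
          Rr Ω v g A (1 * e * ∏ p ∈ T, p) ≤ ((J : ℝ) + 2) * SR :=
        mul_le_mul_of_nonneg_left e5 hJ20
      rw [mul_sub] at h1
      linarith only [h1, h2, h3, h4, hxβ]
    exact arith_low3 hx hε hη hSR (Nat.cast_nonneg J) hJ3 hfirst
  · -- upper bound
    intro τ hτ1 hτ2
    have hsum : ∑ i ∈ Ω1, I3 N ε (v i) ≤
        ∑ i ∈ Ω1, LL P (tt N) (ind (v i)) K true τ (1 / 3) 1 :=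
      Finset.sum_le_sum fun i _ => I3_le N hN2 ε K (v i) τ
    refine hsum.trans ?_
    have e1 := LL_main hN2 (ε := ε) (w := 1 / 3) Ω1 v g x K true τ (1 / 3) 1
      (fun p hp _ h => (mem_pr.1 hp).2.1.one_lt.ne' (Nat.dvd_one.1 h))
    have e2 := (HM' τ (1 / 3) (by linarith) (by linarith) le_rfl (by linarith)
      (by linarith)).1
    have e3 : ε / (1 / 3) * F (τ / (1 / 3)) = ε * (A0 / τ) := by
      rw [hS.F3 _ (by linarith) (by linarith)]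
      have : τ ≠ 0 := by linarith
      field_simp
    rw [e3] at e2
    have e4 := hEB true τ (by linarith) (fun h => by simp at h)
    rw [gp_one, one_mul] at e4
    have e5 := hm1 τ (by linarith)
    set SR := ∑ m ∈ Lv' z ((N : ℝ) ^ (τ + 1 / 100)), Rr Ω v g A m with hSRd
    have hSR : 0 ≤ SR := hSR0 _
    rw [e1, gp_one, one_mul]
    have h2 := (abs_le.1 e4).2
    have h3 : β * (x * ∏ p ∈ P, (1 + g p)) ≤ x * (ε * (η / 16)) := by
      calc β * (x * ∏ p ∈ P, (1 + g p)) ≤ β * (x * (1 / ε)) := by gcongr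
        _ = x * (β * (1 / ε)) := by ring
        _ ≤ _ := hxβ
    have h5 : 0 ≤ ∑ e ∈ EE P (tt N) τ (1 / 3), ∑ T ∈ TT, Rr Ω v g A (1 * e * ∏ p ∈ T, p) :=
      Finset.sum_nonneg fun e _ => Finset.sum_nonneg fun T _ => Rr_nonneg Ω v g A _
    exact arith_up hε hη hx e2 h3 (Nat.cast_nonneg J) hJ3 h5 e5 h2

theorem RR3_iff {N z : ℕ} (hN : 2 ≤ N) {ε : ℝ} (hε : ε ≤ 1 / 8) (hz : (z : ℝ) < (N : ℝ) ^ ε)
    (n : ℕ) : Pool.Agent.Y667.RZ.RR3 N z n ↔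
      (∀ p ∈ P1 N z ε, ¬ p ∣ n) ∧ ∀ p ∈ pr N ε (1 / 3), ¬ p ∣ n := by
  have hNr : (1 : ℝ) < N := by exact_mod_cast (by omega : 1 < N)
  have hmono : (N : ℝ) ^ ε ≤ (N : ℝ) ^ (1 / 3 : ℝ) :=
    Real.rpow_le_rpow_of_exponent_le hNr.le (by linarith)
  have hle : (N : ℝ) ^ (1 / 3 : ℝ) ≤ N := by
    calc (N : ℝ) ^ (1 / 3 : ℝ) ≤ (N : ℝ) ^ (1 : ℝ) :=
          Real.rpow_le_rpow_of_exponent_le hNr.le (by norm_num)
      _ = N := Real.rpow_one _
  constructor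
  · intro h
    constructor
    · intro p hp
      rw [mem_P1] at hp
      exact h p hp.2.1 hp.1.1 (hp.2.2.trans_le hmono)
    · intro p hp
      rw [mem_pr] at hp
      have h1 := (le_tt_iff hN hp.2.1 ε).1 hp.2.2.1
      have h2 := (tt_lt_iff hN hp.2.1 _).1 hp.2.2.2
      exact h p hp.2.1 (by exact_mod_cast hz.trans_le h1) h2
  · rintro ⟨h1, h2⟩ p hp hzp hp4
    have hpN : p ≤ N := by exact_mod_cast (hp4.le.trans hle)
    by_cases h3 : (p : ℝ) < (N : ℝ) ^ ε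
    · exact h1 p (mem_P1.2 ⟨⟨hzp, hpN⟩, hp, h3⟩)
    · exact h2 p (mem_pr.2 ⟨⟨hp.pos, hpN⟩, hp, (le_tt_iff hN hp ε).2 (not_lt.1 h3),
        (tt_lt_iff hN hp _).2 hp4⟩)

/-- **SV3** (the linear sieve up to `N ^ (1/3)`). -/
theorem SV3 : Pool.Agent.Y667.RZ.St_SV3 := by
  classical
  obtain ⟨A0, C0, hA0, h⟩ := core3
  refine ⟨A0, C0, hA0, ?_⟩
  intro z hz η hη
  obtain ⟨ε, hε, hε8, N0, hN0, hc⟩ := h z hz η hη
  refine ⟨ε, hε, hε8, N0, ?_⟩
  intro N hN ι Ω v g A S hA hS hSN hg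
  obtain ⟨hzN, hc⟩ := hc N hN
  have hN2 : 2 ≤ N := hN0.trans hN
  obtain ⟨hlow, hup⟩ := hc ι Ω v g A S hA hS hSN hg
  have hR : ∀ D : ℝ, ∑ q ∈ Lv' z D, Rr Ω v g A q =
      ∑ q ∈ Pool.Agent.Y667.RP.Lev z D, Pool.Agent.Y667.RP.Rq Ω v g A q := by
    intro D
    rw [Lv_eq]
    exact Finset.sum_congr rfl fun q _ => Rr_eq Ω v g A q
  have hf : ∑ i ∈ Ω.filter (fun i => ∀ p ∈ P1 N z ε, ¬ p ∣ v i), I3 N ε (v i) =
      ((Ω.filter (fun i => Pool.Agent.Y667.RZ.RR3 N z (v i))).card : ℝ) := by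
    rw [Finset.card_eq_sum_ones]
    push_cast
    rw [Finset.sum_filter, Finset.sum_filter]
    apply Finset.sum_congr rfl
    intro i _
    have h1 := RR3_iff hN2 hε8 hzN (v i)
    unfold I3
    by_cases h2 : ∀ p ∈ P1 N z ε, ¬ p ∣ v i
    · by_cases h3 : ∀ p ∈ pr N ε (1 / 3), ¬ p ∣ v i
      · rw [if_pos h2, if_pos h3, if_pos (h1.2 ⟨h2, h3⟩)]
      · rw [if_pos h2, if_neg h3, if_neg (fun h4 => h3 (h1.1 h4).2)]
    · rw [if_neg h2, if_neg (fun h4 => h2 (h1.1 h4).1)]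
  constructor
  · rw [hR, P1_eq] at hlow
    refine hlow.trans (le_of_eq ?_)
    refine Eq.trans ?_ hf
    refine Finset.sum_congr ?_ ?_
    · ext i
      simp only [mem_filter, mem_Ioc, mem_P1]
    · intro i _
      rfl
  · intro τ h9 h34
    have h1 := hup τ h9 h34
    rw [hR, P1_eq] at h1
    refine le_trans (le_of_eq ?_) h1
    rw [← hf]
    refine Finset.sum_congr ?_ ?_
    · ext i
      simp only [mem_filter, mem_Ioc, mem_P1]
    · intro i _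
      rfl

end Pool.Agent.Y246.RZ
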